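import Mathlib

set_option autoImplicit false

namespace Pool.Agent.Results.MP_1fb722_al.Order

/-- `x ⪯ y` in `Γ`. -/
def Dv (Γ : AddSubmonoid ℕ) (x y : ℕ) : Prop := ∃ z ∈ Γ, y = x + z

/-- The omega-primality value. -/
noncomputable def omega (Γ : AddSubmonoid ℕ) (x : ℕ) : ℕ :=
  sInf {N | 0 < N ∧ ∀ A : Multiset ℕ, (∀ a ∈ A, a ∈ Γ) → Dv Γ x A.sum →
    ∃ T ≤ A, T.card ≤ N ∧ Dv Γ x T.sum}

def Red (D : ℕ → ℕ → Prop) (W : ℕ) : Prop := ∀ b c, D b c → ∃ b' ≤ b, ∃ c' ≤ c, b' + c' ≤ W ∧ D b' c'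

lemma bullet {D : ℕ → ℕ → Prop} {W : ℕ} (h : ¬ Red D W) :
    ∃ b c, W < b + c ∧ D b c ∧ ∀ b' ≤ b, ∀ c' ≤ c, b' + c' < b + c → ¬ D b' c' := by
  by_contra hc
  push Not at hc
  refine h fun b c => ?_
  induction' hn : b + c using Nat.strong_induction_on with n ih generalizing b c
  intro hD
  by_cases hW : W < b + c
  · obtain ⟨b', h1, c', h2, h3, h4⟩ := hc b c hW hD
    obtain ⟨b'', h5, c'', h6, h7⟩ := ih _ (hn ▸ h3) b' c' rfl h4
    exact ⟨b'', h5.trans h1, c'', h6.trans h2, h7⟩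
  · exact ⟨b, le_rfl, c, le_rfl, not_lt.1 hW, hD⟩

lemma core {x y z W : ℕ} (h0 : 0 < x) (h1 : x < y) (h2 : y < z)
    (H : Red (fun a b => ∃ α β γ, a * x + b * y = α * x + β * y + (γ + 1) * z) W) :
    Red (fun b c => ∃ α β γ, b * y + c * z = (α + 1) * x + β * y + γ * z) W ∨
    Red (fun a c => ∃ α β γ, a * x + c * z = α * x + (β + 1) * y + γ * z) W := by
  classical
  have ep : ∃ p, ∃ α β γ, p * x = α * x + β * y + (γ + 1) * z :=
    ⟨z, 0, 0, x - 1, by rw [Nat.sub_add_cancel h0]; ring⟩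
  have eq : ∃ q, ∃ α β γ, q * y = α * x + β * y + (γ + 1) * z :=
    ⟨z, 0, 0, y - 1, by rw [Nat.sub_add_cancel (h0.trans h1)]; ring⟩
  have mp : ∀ p α β γ, p * x = α * x + β * y + (γ + 1) * z → Nat.find ep ≤ p :=
    fun p α β γ h => Nat.find_min' ep ⟨α, β, γ, h⟩
  have mq : ∀ q α β γ, q * y = α * x + β * y + (γ + 1) * z → Nat.find eq ≤ q :=
    fun p α β γ h => Nat.find_min' eq ⟨α, β, γ, h⟩
  obtain ⟨w, v, u, hp⟩ := Nat.find_spec ep
  obtain ⟨s, w', t, hq⟩ := Nat.find_spec eq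
  generalize Nat.find ep = p at *
  generalize Nat.find eq = q at *
  have pW : p ≤ W := by
    obtain ⟨a, _, b, hb, h3, α, β, γ, h4⟩ := H p 0 ⟨w, v, u, by linarith⟩
    obtain rfl : b = 0 := by omega
    have := mp a α β γ (by linarith)
    omega
  have qW : q ≤ W := by
    obtain ⟨a, ha, b, _, h3, α, β, γ, h4⟩ := H 0 q ⟨s, w', t, by linarith⟩
    obtain rfl : a = 0 := by omega
    have := mq b α β γ (by linarith)
    omega
  obtain rfl : w = 0 := by
    rcases w with _ | w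
    · rfl
    · rcases p with _ | p
      · nlinarith
      · have := mp p w v u (by linarith); omega
  obtain rfl : w' = 0 := by
    rcases w' with _ | w
    · rfl
    · rcases q with _ | q
      · nlinarith
      · have := mq q s w t (by linarith); omega
  by_contra hc
  push Not at hc
  obtain ⟨b, c, b1, ⟨α, β, γ, b2⟩, b3⟩ := bullet hc.1
  obtain ⟨a, e, a1, ⟨α2, β2, γ2, a2⟩, a3⟩ := bullet hc.2
  have k1 : s = 0 ∧ (v = 0 → u < t → False) := by
    rcases c with _ | c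
    · obtain rfl : s = 0 := by
        rcases s with _ | s
        · rfl
        · exact absurd ⟨s, 0, t + 1, by linarith⟩ (b3 q (by omega) 0 le_rfl (by omega))
      refine ⟨rfl, fun hv hu => ?_⟩
      obtain ⟨k, rfl⟩ := Nat.exists_eq_add_of_lt hu
      subst hv
      rcases p with _ | p
      · nlinarith
      · exact b3 q (by omega) 0 le_rfl (by omega) ⟨p, 0, k + 1, by linarith⟩
    · obtain rfl : γ = 0 := by
        rcases γ with _ | γ
        · rfl
        · exact absurd ⟨α, β, γ, by linarith⟩ (b3 b le_rfl c (by omega) (by omega))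
      have hb : b = 0 ∨ β = 0 := by
        rcases b with _ | b
        · exact Or.inl rfl
        · rcases β with _ | β
          · exact Or.inr rfl
          · exact absurd ⟨α, β, 0, by linarith⟩ (b3 b (by omega) _ le_rfl (by omega))
      have hl : b + (c + 1) < α + 1 + β := by
        by_contra hh
        push Not at hh
        rcases hb with rfl | rfl <;> nlinarith
      obtain ⟨α', c1, β', c2, c3, i, j, k, c4⟩ := H (α + 1) β ⟨0, b, c, by linarith⟩
      obtain ⟨m, hm⟩ := Nat.exists_eq_add_of_le c1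
      obtain ⟨l, rfl⟩ := Nat.exists_eq_add_of_le c2
      have e1 : b * y + c * z = (m + i) * x + (l + j) * y + k * z := by
        rw [hm] at b2; linarith
      have hmi : m + i = 0 := by
        rcases hh : m + i with _ | r
        · rfl
        · exact absurd ⟨r, l + j, k, by rw [← hh]; exact e1⟩ (b3 b le_rfl c (by omega) (by omega))
      obtain rfl : b = 0 := by omega
      rw [hmi] at e1
      have hk : k < c := by
        by_contra hh
        push Not at hh
        have : 0 < l := by omega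
        nlinarith
      obtain ⟨r, rfl⟩ := Nat.exists_eq_add_of_lt hk
      obtain ⟨o, ho⟩ := Nat.exists_eq_add_of_le (mq (l + j) 0 0 r (by linarith))
      rw [ho] at e1
      constructor
      · rcases s with _ | s
        · rfl
        · exact absurd ⟨s, o, t + 1, by linarith⟩ (b3 0 le_rfl (r + 1) (by omega) (by omega))
      · rintro rfl _
        have : u + 1 < p := by
          by_contra hh
          push Not at hh
          nlinarith
        obtain ⟨p, rfl⟩ := Nat.exists_eq_add_of_lt (show 0 < p by omega)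
        exact b3 0 le_rfl (u + 1) (by omega) (by omega) ⟨p, 0, 0, by linarith⟩
  obtain ⟨rfl, k2⟩ := k1
  have tq : t + 1 < q := by
    by_contra hh
    push Not at hh
    nlinarith
  obtain ⟨q, rfl⟩ := Nat.exists_eq_add_of_lt (show 0 < q by omega)
  have he : e ≤ t := by
    by_contra hh
    exact a3 0 (by omega) (t + 1) (by omega) (by omega) ⟨0, q, 0, by linarith⟩
  by_cases hpa : p ≤ a
  · rcases v with _ | v
    · by_cases hu : u < t
      · exact k2 rfl hu
      · obtain ⟨k, rfl⟩ := Nat.exists_eq_add_of_le (not_lt.1 hu)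
        exact a3 p hpa 0 (by omega) (by omega) ⟨0, q, k, by linarith⟩
    · exact a3 p hpa 0 (by omega) (by omega) ⟨0, v, u + 1, by linarith⟩
  · obtain ⟨e, rfl⟩ := Nat.exists_eq_add_of_lt (show 0 < e by omega)
    obtain ⟨a, rfl⟩ := Nat.exists_eq_add_of_lt (show 0 < a by omega)
    obtain rfl : γ2 = 0 := by
      rcases γ2 with _ | γ
      · rfl
      · exact absurd ⟨α2, β2, γ, by linarith⟩ (a3 _ le_rfl e (by omega) (by omega))
    obtain rfl : α2 = 0 := by
      rcases α2 with _ | α2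
      · rfl
      · exact absurd ⟨α2, β2, 0, by linarith⟩ (a3 a (by omega) _ le_rfl (by omega))
    obtain ⟨o, ho⟩ := Nat.exists_eq_add_of_le (mq (β2 + 1) (a + 1) 0 e (by linarith))
    obtain ⟨k, rfl⟩ := Nat.exists_eq_add_of_le he
    rw [ho] at a2
    have := mp (a + 1) 0 o k (by linarith)
    omega

lemma mem_iff {x y z n : ℕ} : n ∈ AddSubmonoid.closure ({x, y, z} : Set ℕ) ↔
    ∃ a b c, n = a * x + b * y + c * z := by
  constructor
  · intro h
    induction h using AddSubmonoid.closure_induction with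
    | mem n hn =>
      rcases hn with rfl | rfl | rfl
      exacts [⟨1, 0, 0, by simp⟩, ⟨0, 1, 0, by simp⟩, ⟨0, 0, 1, by simp⟩]
    | zero => exact ⟨0, 0, 0, by simp⟩
    | add _ _ _ _ h1 h2 =>
      obtain ⟨a, b, c, rfl⟩ := h1
      obtain ⟨a', b', c', rfl⟩ := h2
      exact ⟨a + a', b + b', c + c', by ring⟩
  · rintro ⟨a, b, c, rfl⟩
    have m : ∀ (k t : ℕ), t ∈ ({x, y, z} : Set ℕ) →
        k * t ∈ AddSubmonoid.closure ({x, y, z} : Set ℕ) := fun k t ht =>
      nsmul_mem (AddSubmonoid.subset_closure ht) k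
    exact add_mem (add_mem (m _ _ (by simp)) (m _ _ (by simp))) (m _ _ (by simp))

lemma pick {x y z : ℕ} (A : Multiset ℕ) (hA : ∀ n ∈ A, n ∈ AddSubmonoid.closure ({x, y, z} : Set ℕ)) :
    ∃ a b c, A.sum = a * x + b * y + c * z ∧ ∀ a' ≤ a, ∀ b' ≤ b, ∀ c' ≤ c, ∃ T ≤ A,
      T.card ≤ a' + b' + c' ∧ ∃ i j k, T.sum = (a' + i) * x + (b' + j) * y + (c' + k) * z := by
  induction A using Multiset.induction_on with
  | empty => exact ⟨0, 0, 0, by simp, fun a ha b hb c hc => ⟨0, le_rfl, by simp, 0, 0, 0, by simp_all⟩⟩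
  | cons n A ih =>
    obtain ⟨a, b, c, h1, h2⟩ := ih fun m hm => hA m (Multiset.mem_cons_of_mem hm)
    obtain ⟨α, β, γ, rfl⟩ := mem_iff.1 (hA n (Multiset.mem_cons_self _ _))
    refine ⟨α + a, β + b, γ + c, by rw [Multiset.sum_cons, h1]; ring, fun a' ha b' hb c' hc => ?_⟩
    by_cases h : a' ≤ a ∧ b' ≤ b ∧ c' ≤ c
    · obtain ⟨T, t1, t2⟩ := h2 a' h.1 b' h.2.1 c' h.2.2
      exact ⟨T, t1.trans (Multiset.le_cons_self _ _), t2⟩
    · obtain ⟨T, t1, t2, i, j, k, t3⟩ := h2 (a' - α) (by omega) (b' - β) (by omega) (c' - γ)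
        (by omega)
      refine ⟨_, Multiset.cons_le_cons _ t1, by rw [Multiset.card_cons]; omega, α - a' + i,
        β - b' + j, γ - c' + k, ?_⟩
      rw [Multiset.sum_cons, t3, show a' + (α - a' + i) = α + (a' - α + i) by omega,
        show b' + (β - b' + j) = β + (b' - β + j) by omega,
        show c' + (γ - c' + k) = γ + (c' - γ + k) by omega]
      ring

lemma fin (Γ : AddSubmonoid ℕ) (hΓ : (Γ : Set ℕ)ᶜ.Finite) (x : ℕ) :
    ∃ N, 0 < N ∧ ∀ A : Multiset ℕ, (∀ a ∈ A, a ∈ Γ) → Dv Γ x A.sum →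
      ∃ T ≤ A, T.card ≤ N ∧ Dv Γ x T.sum := by
  obtain ⟨F, hF⟩ := hΓ.bddAbove
  refine ⟨x + F + 1, by omega, fun A _ h => ?_⟩
  have e : (A.filter (· ≠ 0)).sum = A.sum := by
    conv_rhs => rw [← Multiset.filter_add_not (· ≠ 0) A, Multiset.sum_add,
      Multiset.sum_eq_zero (s := A.filter (¬ · ≠ 0)) fun n hn => by
        simpa using (Multiset.mem_filter.1 hn).2, add_zero]
  by_cases hc : (A.filter (· ≠ 0)).card ≤ x + F + 1
  · exact ⟨_, Multiset.filter_le _ _, hc, e ▸ h⟩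
  · obtain ⟨T, hT⟩ : ∃ T, T ∈ Multiset.powersetCard (x + F + 1) (A.filter (· ≠ 0)) :=
      Multiset.card_pos_iff_exists_mem.1 (by
        rw [Multiset.card_powersetCard]; exact Nat.choose_pos (le_of_not_ge hc))
    obtain ⟨t1, t2⟩ := Multiset.mem_powersetCard.1 hT
    have : T.card • 1 ≤ T.sum := Multiset.card_nsmul_le_sum fun n hn =>
      Nat.pos_of_ne_zero (Multiset.mem_filter.1 (Multiset.mem_of_le t1 hn)).2
    rw [t2, smul_eq_mul] at this
    refine ⟨T, t1.trans (Multiset.filter_le _ _), t2.le, T.sum - x, ?_, by omega⟩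
    by_contra hn
    have := hF hn
    omega

theorem result (n₁ n₂ n₃ : ℕ) (h0 : 0 < n₁) (h1 : n₁ < n₂) (h2 : n₂ < n₃) (Γ : AddSubmonoid ℕ)
    (hΓ : Γ = AddSubmonoid.closure {n₁, n₂, n₃}) (hf : (Γ : Set ℕ)ᶜ.Finite) :
    ¬ (omega Γ n₁ > omega Γ n₂ ∧ omega Γ n₂ > omega Γ n₃) ∧
    ¬ (omega Γ n₁ = omega Γ n₂ ∧ omega Γ n₂ > omega Γ n₃) ∧
    ¬ (omega Γ n₃ < omega Γ n₁ ∧ omega Γ n₁ < omega Γ n₂) := by
  suffices omega Γ n₁ ≤ omega Γ n₃ ∨ omega Γ n₂ ≤ omega Γ n₃ by omega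
  obtain ⟨hW, H⟩ : omega Γ n₃ ∈ _ := Nat.sInf_mem (fin Γ hf n₃)
  generalize omega Γ n₃ = W at *
  subst hΓ
  refine (core (W := W) h0 h1 h2 ?_).imp (fun R => Nat.sInf_le ⟨hW, fun A hA h => ?_⟩)
    fun R => Nat.sInf_le ⟨hW, fun A hA h => ?_⟩
  · rintro a b ⟨α, β, γ, h⟩
    obtain ⟨T, t1, t2, _, t3, t4⟩ := H (Multiset.replicate a n₁ + Multiset.replicate b n₂)
      (fun n hn => AddSubmonoid.subset_closure (by
        rcases Multiset.mem_add.1 hn with h | h <;> simp [Multiset.eq_of_mem_replicate h]))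
      ⟨_, mem_iff.2 ⟨α, β, γ, rfl⟩, by simp only [Multiset.sum_add, Multiset.sum_replicate, smul_eq_mul]; linarith⟩
    obtain ⟨a', ha, e1⟩ := Multiset.le_replicate_iff.1
      (Multiset.inter_le_right (s := T) (t := Multiset.replicate a n₁))
    obtain ⟨b', hb, e2⟩ := Multiset.le_replicate_iff.1 (tsub_le_iff_left.2 t1)
    rw [← Multiset.sub_add_inter T (Multiset.replicate a n₁), e1, e2] at t2 t4
    obtain ⟨i, j, k, rfl⟩ := mem_iff.1 t3
    simp only [Multiset.sum_add, Multiset.sum_replicate, smul_eq_mul, Multiset.card_add,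
      Multiset.card_replicate] at t2 t4
    exact ⟨a', ha, b', hb, by omega, i, j, k, by linarith⟩
  · obtain ⟨a, b, c, e, hp⟩ := pick A hA
    obtain ⟨_, m, e2⟩ := h
    obtain ⟨α, β, γ, rfl⟩ := mem_iff.1 m
    rcases a with _ | a
    · obtain ⟨b', hb, c', hc, h3, i, j, k, h4⟩ := R b c ⟨α, β, γ, by linarith⟩
      obtain ⟨T, t1, t2, i', j', k', t3⟩ := hp 0 le_rfl b' hb c' hc
      exact ⟨T, t1, by omega, _, mem_iff.2 ⟨i + i', j + j', k + k', rfl⟩, by linarith⟩
    · obtain ⟨T, t1, t2, i', j', k', t3⟩ := hp 1 (by omega) 0 (by omega) 0 (by omega)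
      exact ⟨T, t1, by omega, _, mem_iff.2 ⟨i', j', k', rfl⟩, by linarith⟩
  · obtain ⟨a, b, c, e, hp⟩ := pick A hA
    obtain ⟨_, m, e2⟩ := h
    obtain ⟨α, β, γ, rfl⟩ := mem_iff.1 m
    rcases b with _ | b
    · obtain ⟨a', hb, c', hc, h3, i, j, k, h4⟩ := R a c ⟨α, β, γ, by linarith⟩
      obtain ⟨T, t1, t2, i', j', k', t3⟩ := hp a' hb 0 le_rfl c' hc
      exact ⟨T, t1, by omega, _, mem_iff.2 ⟨i + i', j + j', k + k', rfl⟩, by linarith⟩
    · obtain ⟨T, t1, t2, i', j', k', t3⟩ := hp 0 (by omega) 1 (by omega) 0 (by omega)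
      exact ⟨T, t1, by omega, _, mem_iff.2 ⟨i', j', k', rfl⟩, by linarith⟩

end Pool.Agent.Results.MP_1fb722_al.Order
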